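import Pool.Agent.X65.Exc.Final

/-!
# How many posets have a small balance constant

Let `N_c(n)` (`numP c n`) be the number of isomorphism classes of posets with `n` elements and balance
constant less than `c`.

(1) For every `η > 0` there are at most `C ^ n` of them for `c = 1/2 - η`, where
`C = exp (exp (B log(2/η)³ / η⁴))`; the number of all posets is `2 ^ (n²/4 + o(n²))`. So posets without
nearly balanced pairs, and in particular the possible counterexamples to Q1, Q2 and the
`1/3`-`2/3` conjecture, are exponentially rare.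

(2) For `0 < c < 1/2` the growth rate `λ_c = lim N_c(n) ^ (1/n)` exists, and `N_c(n) ≤ λ_c ^ n`.

(3) Let `ρ = 1.4656...` be the positive solution of `ρ³ = ρ² + 1`, the growth rate of the class `D`,
and `1/3 < c < 1/2`. All nonempty posets not in `D` have balance constant at least `c` if and only if
`λ_c = ρ`, and if and only if `N_c(n) ≤ ρ ^ n` for all `n`; otherwise `λ_c > ρ`.

(4) So Q1 has a positive answer if and only if `λ_c = ρ` for some `c > 1/3`.

Proof of (1): by the starting result `ManyIncomparable` each element is incomparable to at most `K`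
others; in an enumeration by a linear extension elements at distance `2 K` are comparable, so that
`2 K n` bits determine the poset. For (2)-(4): the balance constant of a direct sum is the maximum of
those of the summands, and the first indecomposable summand of a poset is unique up to isomorphism;
so `N_c` is supermultiplicative, and `N_c(n) ≥ N_c(n-1) + N_c(n-3) + N_c(n-s)` if there is an
indecomposable poset with `s` elements, not in `D`, of balance constant less than `c`.
-/

set_option autoImplicit false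

namespace Pool.Agent.Results.MP_33fb9b_co.ExceptionalPosets

open Pool.Agent.H13R3.WB Pool.Agent.X65.Exc Filter Topology

theorem result :
    -- (1) at most exponentially many posets without nearly balanced pairs
    (∃ B : ℝ, 0 < B ∧ ∀ η : ℝ, 0 < η → η ≤ 1 / 2 → ∀ n : ℕ,
      (numP (1 / 2 - η) n : ℝ) ≤ Real.exp (Real.exp (B * Real.log (2 / η) ^ 3 / η ^ 4) * n)) ∧
    -- (2) the growth rate exists
    (∀ c : ℝ, 0 < c → c < 1 / 2 → ∃ lam : ℝ, 1 ≤ lam ∧
      Tendsto (fun n : ℕ => (numP c n : ℝ) ^ (1 / (n : ℝ))) atTop (𝓝 lam) ∧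
      ∀ n : ℕ, (numP c n : ℝ) ≤ lam ^ n) ∧
    -- (3) a gap `c` in terms of the growth rate
    (∀ ρ : ℝ, 0 < ρ → ρ ^ 3 = ρ ^ 2 + 1 → ∀ c : ℝ, 1 / 3 < c → c < 1 / 2 →
      ((∀ (P : Type) [Fintype P] [PartialOrder P] [Nonempty P], ¬ InD P → c ≤ balance P) ↔
        Tendsto (fun n : ℕ => (numP c n : ℝ) ^ (1 / (n : ℝ))) atTop (𝓝 ρ)) ∧
      ((∀ (P : Type) [Fintype P] [PartialOrder P] [Nonempty P], ¬ InD P → c ≤ balance P) ↔
        ∀ n : ℕ, (numP c n : ℝ) ≤ ρ ^ n) ∧
      (¬ (∀ (P : Type) [Fintype P] [PartialOrder P] [Nonempty P], ¬ InD P → c ≤ balance P) →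
        ∃ lam : ℝ, ρ < lam ∧
          Tendsto (fun n : ℕ => (numP c n : ℝ) ^ (1 / (n : ℝ))) atTop (𝓝 lam))) ∧
    -- (4) Q1 in terms of the growth rate
    (∀ ρ : ℝ, 0 < ρ → ρ ^ 3 = ρ ^ 2 + 1 →
      ((∃ ε : ℝ, 0 < ε ∧ ∀ (P : Type) [Fintype P] [PartialOrder P] [Nonempty P], ¬ InD P →
        1 / 3 + ε ≤ balance P) ↔
      ∃ c : ℝ, 1 / 3 < c ∧ c < 1 / 2 ∧
        Tendsto (fun n : ℕ => (numP c n : ℝ) ^ (1 / (n : ℝ))) atTop (𝓝 ρ))) :=
  ⟨numP_le_exp, fun _ h0 h1 => growth_exists h0 h1,
    fun _ h0 h _ hc hc2 => gap_growth hc hc2 h0 h, fun _ h0 h => gap_iff_growth h0 h⟩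

end Pool.Agent.Results.MP_33fb9b_co.ExceptionalPosets
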