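import Pool.Agent.X65.Loc.Final

/-!
# The gap question can be decided to any precision by small posets

All posets are finite, `δ` is the balance constant, `D` the class of the problem.

(1) Locality of the order probabilities. Let every element of `P` be incomparable to at most `K`
elements and let `Q` be a part of `P` which is closed upwards. If more than `|P \ Q| + k K` elements
of `P` are below or equal to `y`, then the probability that `x` comes before `y` changes by at most
`(1 - 1/K!) ^ k` if the rest of `P` is removed, for all `x`. The same for parts closed downwards.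

(2) For every `η > 0` there is an integer `C` such that for every `0 < ε ≤ 1` every nonempty `P` not
in `D` with `δ(P) < 1/2 - η` has a companion `Q` not in `D` with at most `C (1/ε) ^ C` elements and
`δ(Q) ≤ δ(P) + ε`. The same with the non-chains in place of the posets not in `D`.

(3) So the posets with at most `N` elements give the infimum of `δ` over all posets not in `D` (over
all non-chains) up to an error `(C/N) ^ (1/C)`: the gap of Q1, the optimal constant of Q2 and the
constant of the `1/3`-`2/3` conjecture are computable real numbers, with a polynomial bound in `1/ε`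
for the size of the posets which have to be considered.

(4) There is an absolute constant `C` such that Q1 has a positive answer if and only if for some
`N ≥ C` all posets `Q` not in `D` with at most `N` elements have
`δ(Q) ≥ 1/3 + 2 (C/N) ^ (1/C)`. So a positive answer to Q1 could be proved by a finite computation,
if a value of `C` (which is not computed here) is known.

Proof of (1): the conditional probability after a lower set `J` has been removed is an average of the
conditional probabilities after `K` further steps, with weights that are equal up to a factor `K!` for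
all lower sets `J` of the same size, because lower sets whose sizes differ by `K` are nested; so the
oscillation is reduced by the factor `1 - 1/K!` (Doeblin). Proof of (2): by the starting result
`ManyIncomparable` the posets are thin; we pass to an indecomposable summand, enumerate it by a linear
extension, so that elements at distance `M` are comparable, find two equal windows of length
`L = O(log(1/ε))` by the pigeonhole principle and remove the part between them. All windows of the new
poset are windows of the old one, so by (1) the error does not grow when this is repeated.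
-/

set_option autoImplicit false

namespace Pool.Agent.Results.MP_33fb9b_co.FiniteReduction

open Pool.Agent.H13R3.WB Pool.Agent.X65.Loc

theorem result :
    -- (1) locality
    (∀ (P Q : Type) [Fintype P] [PartialOrder P] [Fintype Q] [PartialOrder Q] (ι : Q ↪o P)
      (K k : ℕ), (∀ x : P, Nat.card {y : P // ¬ x ≤ y ∧ ¬ y ≤ x} ≤ K) →
      ((∀ (q : Q) (p : P), ι q ≤ p → p ∈ Set.range ι) → ∀ x y : Q,
        Fintype.card P + k * K < Fintype.card Q + Nat.card {w : P // w ≤ ι y} →
        |prob P (ι x) (ι y) - prob Q x y| ≤ (1 - 1 / (K.factorial : ℝ)) ^ k) ∧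
      ((∀ (q : Q) (p : P), p ≤ ι q → p ∈ Set.range ι) → ∀ x y : Q,
        Fintype.card P + k * K < Fintype.card Q + Nat.card {w : P // ι x ≤ w} →
        |prob P (ι x) (ι y) - prob Q x y| ≤ (1 - 1 / (K.factorial : ℝ)) ^ k)) ∧
    -- (2) reduction to small posets
    (∀ η : ℝ, 0 < η → η ≤ 1 / 2 → ∃ C : ℕ, 1 ≤ C ∧ ∀ ε : ℝ, 0 < ε → ε ≤ 1 →
      (∀ (P : Type) [Fintype P] [PartialOrder P] [Nonempty P], ¬ InD P → balance P < 1 / 2 - η →
        ∃ (Q : Type) (_ : Fintype Q) (_ : PartialOrder Q), Nonempty Q ∧ ¬ InD Q ∧
          (Fintype.card Q : ℝ) ≤ C * (1 / ε) ^ C ∧ balance Q ≤ balance P + ε) ∧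
      (∀ (P : Type) [Fintype P] [PartialOrder P], (∃ x y : P, ¬ x ≤ y ∧ ¬ y ≤ x) →
        balance P < 1 / 2 - η →
        ∃ (Q : Type) (_ : Fintype Q) (_ : PartialOrder Q), (∃ x y : Q, ¬ x ≤ y ∧ ¬ y ≤ x) ∧
          (Fintype.card Q : ℝ) ≤ C * (1 / ε) ^ C ∧ balance Q ≤ balance P + ε)) ∧
    -- (3) the infimum is given by the posets with at most `N` elements up to a power of `N`
    (∀ η : ℝ, 0 < η → η ≤ 1 / 2 → ∃ C : ℕ, 1 ≤ C ∧ ∀ N : ℕ, C ≤ N → ∀ c : ℝ, c ≤ 1 / 2 - η →
      ((∀ (Q : Type) [Fintype Q] [PartialOrder Q] [Nonempty Q], ¬ InD Q → Fintype.card Q ≤ N →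
          c ≤ balance Q) →
        ∀ (P : Type) [Fintype P] [PartialOrder P] [Nonempty P], ¬ InD P →
          c - ((C : ℝ) / N) ^ (1 / (C : ℝ)) ≤ balance P) ∧
      ((∀ (Q : Type) [Fintype Q] [PartialOrder Q], (∃ x y : Q, ¬ x ≤ y ∧ ¬ y ≤ x) →
          Fintype.card Q ≤ N → c ≤ balance Q) →
        ∀ (P : Type) [Fintype P] [PartialOrder P], (∃ x y : P, ¬ x ≤ y ∧ ¬ y ≤ x) →
          c - ((C : ℝ) / N) ^ (1 / (C : ℝ)) ≤ balance P)) ∧
    -- (4) Q1 is equivalent to a finite verification
    (∃ C : ℕ, 1 ≤ C ∧
      ((∃ ε : ℝ, 0 < ε ∧ ∀ (P : Type) [Fintype P] [PartialOrder P] [Nonempty P], ¬ InD P →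
          1 / 3 + ε ≤ balance P) ↔
        ∃ N : ℕ, C ≤ N ∧ ∀ (Q : Type) [Fintype Q] [PartialOrder Q] [Nonempty Q], ¬ InD Q →
          Fintype.card Q ≤ N → 1 / 3 + 2 * ((C : ℝ) / N) ^ (1 / (C : ℝ)) ≤ balance Q)) :=
  ⟨fun _ _ _ _ _ _ ι _ k hthin => ⟨fun hup x y hy => loc_low ι k hthin hup x y hy,
    fun hdown x y hx => loc_high ι k hthin hdown x y hx⟩, reduction, approx, gap_iff⟩

end Pool.Agent.Results.MP_33fb9b_co.FiniteReduction
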