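import Pool.Agent.X65.Pos.Greedy

/-!
# Posets with more than `C ^ n` linear extensions are nearly balanced, and greedy sorting

Let `e(P)` be the number of linear extensions of a finite poset `P` with `n` elements.

(1) There is an absolute constant `B` such that for `0 < ε ≤ 1/2` every poset with
`e(P) > exp (B log(2/ε)³ / ε⁴ · n)` has balance constant at least `1/2 - ε`.  So the gap above `1/3`
of Q1, the value `β` of Q2, and every value below `1/2`, hold for all posets with more than `C ^ n`
linear extensions, where `C` depends only on the value; every counterexample to Q1 or Q2 has at most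
`C ^ n` linear extensions.  (All `n!` is possible in general, and `C ^ n` is of the right form: direct
sums of three-element posets of the class `D` have `3 ^ (n/3)` linear extensions and balance
constant `1/3`.)

(2) There is an absolute constant `B` such that for `0 < ε ≤ 1` every strategy which sorts, starting
from the partial information `P`, by comparing in each step a pair which is balanced as well as
possible up to the error `ε / 16`, needs at most `(1 + ε) log₂ e(P) + B log(2/ε)³ / ε⁴ · n`
comparisons in the worst case (whatever the answers are).

Proof of (1): by the starting file `ManyIncomparable` every element of a poset with balance constant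
less than `1/2 - ε` is incomparable to at most `K(ε)` elements; a linear extension is determined by
the numbers of elements incomparable to `x` and put before `x`, for all `x`, so that
`e(P) ≤ ∏ (inc(x) + 1)`.  Proof of (2): as long as `log e > C(ε) n` each comparison reduces `log e`
by `log 2 - O(ε)` by (1), and afterwards by a constant by Brightwell-Felsner-Trotter.
-/

set_option autoImplicit false

namespace Pool.Agent.Results.MP_33fb9b_co.GreedySorting

open Pool.Agent.H13R3.WB Pool.Agent.X65.Pos

theorem result :
    -- (1) more than `C(ε) ^ n` linear extensions force a nearly balanced pair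
    (∃ B : ℝ, 0 < B ∧ ∀ ε : ℝ, 0 < ε → ε ≤ 1 / 2 → ∀ (P : Type) [Fintype P] [PartialOrder P],
      Real.exp (B * Real.log (2 / ε) ^ 3 / ε ^ 4 * Fintype.card P) < ext P →
      1 / 2 - ε ≤ balance P) ∧
    -- (2) greedy sorting under partial information
    (∃ B : ℝ, 0 < B ∧ ∀ ε : ℝ, 0 < ε → ε ≤ 1 → ∀ (P : Type) [Fintype P] (k : ℕ)
      (o : ℕ → PartialOrder P), (∀ i < k, GreedyStep (ε / 16) (o i) (o (i + 1))) →
      (k : ℝ) ≤ (1 + ε) * Real.logb 2 (@ext P _ (o 0)) +
        B * Real.log (2 / ε) ^ 3 / ε ^ 4 * Fintype.card P) :=
  ⟨many_ext, greedy⟩

end Pool.Agent.Results.MP_33fb9b_co.GreedySorting
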