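import Pool.Agent.X75.SymPoset

/-!
# A uniform gap above 1/3 for posets with a symmetry, or with two incomparable elements of close
average positions

Let `h(x)` be the average position of `x` in a uniformly random linear extension of the finite poset
`P`.  For incomparable `x, y`:

* `ℙ(y ≺ x) ≥ exp(-1 - max(0, h(y) - h(x)))`, so `ℙ(y ≺ x) ≥ 1/e` when `h(y) ≤ h(x)`;
* both probabilities are at least `1/3 + 1/1000` when `|h(x) - h(y)| ≤ 2/5`;
* both probabilities are at least `7/20 > β` when `|h(x) - h(y)| ≤ 1/5`.

If an automorphism `σ` of `P` moves `x` then `x, σ x` are incomparable and have the same average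
position, so both probabilities are at least `1/e`.  Hence every finite poset with a nontrivial
automorphism satisfies `δ(P) ≥ 1/e = 0.3678... > β > 1/3`.

The proof is the method of Kahn and Linial (log-concavity of the gap, Grünbaum's inequality) in the
quantitative form of the library theorem `Pool.Agent.Y491.BF.pd`, applied to `P` with a long chain
added on top; the second and third points use the Kahn–Saks inequalities for the numbers of linear
extensions with gap `1, 2, 3, 4` as well.
-/

set_option autoImplicit false

namespace Pool.Agent.Results.MP_33fb9b_co.SymmetricPosets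

open Pool.Agent.H13R3.WB Pool.Agent.X75.Sym

theorem result :
    -- incomparable elements whose average positions differ by at most `2/5`
    (∀ (P : Type) [Fintype P] [PartialOrder P] (x y : P), ¬ x ≤ y → ¬ y ≤ x →
      |height P x - height P y| ≤ 2 / 5 → 1 / 3 + 1 / 1000 ≤ min (prob P x y) (prob P y x)) ∧
    -- incomparable elements whose average positions differ by at most `1/5`
    (∀ (P : Type) [Fintype P] [PartialOrder P] (x y : P), ¬ x ≤ y → ¬ y ≤ x →
      |height P x - height P y| ≤ 1 / 5 → 7 / 20 ≤ min (prob P x y) (prob P y x)) ∧
    -- all pairs of incomparable elements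
    (∀ (P : Type) [Fintype P] [PartialOrder P] (x y : P), ¬ x ≤ y → ¬ y ≤ x →
      Real.exp (-1 - max 0 (height P y - height P x)) ≤ prob P y x) ∧
    -- elements moved by an automorphism
    (∀ (P : Type) [Fintype P] [PartialOrder P] (σ : P ≃o P) (x : P), σ x ≠ x →
      Real.exp (-1) ≤ min (prob P x (σ x)) (prob P (σ x) x)) ∧
    -- posets with a nontrivial automorphism
    (∀ (P : Type) [Fintype P] [PartialOrder P] (σ : P ≃o P), σ ≠ OrderIso.refl P →
      Real.exp (-1) ≤ balance P) :=
  ⟨fun P _ _ => close_balanced P, fun P _ _ => very_close_balanced P, fun P _ _ => prob_ge P,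
    fun P _ _ => aut_pair P, fun P _ _ => aut_balance P⟩

end Pool.Agent.Results.MP_33fb9b_co.SymmetricPosets
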